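import Mathlib

section

set_option autoImplicit false

namespace Pool.Agent.MP_ece343_co

open Finset

/-- the sign attached to a Boolean -/
def sgn (b : Bool) : ℝ := if b then 1 else -1

lemma logistic_step (u h : ℝ) (hh : 0 < h) :
    (1 - Real.exp (-h)) * Real.exp (-u ^ 2 / 2) ≤
      4 * (1 / (1 + Real.exp (-(u + h))) - 1 / (1 + Real.exp (-u))) := by
  have hA : 0 < Real.exp (-u) := Real.exp_pos _
  have hB : 0 < Real.exp (-h) := Real.exp_pos _
  have hB1 : Real.exp (-h) ≤ 1 := by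
    rw [Real.exp_le_one_iff]; linarith
  have hc := Real.cosh_le_exp_half_sq u
  rw [Real.cosh_eq] at hc
  have hsplit : Real.exp (-(u + h)) = Real.exp (-u) * Real.exp (-h) := by
    rw [← Real.exp_add]; congr 1; ring
  have hG : 0 < Real.exp (-u ^ 2 / 2) := Real.exp_pos _
  have hG1 : Real.exp (-u ^ 2 / 2) ≤ 1 := by
    rw [Real.exp_le_one_iff]; nlinarith [sq_nonneg u]
  have hGinv : Real.exp (-u ^ 2 / 2) * Real.exp (u ^ 2 / 2) = 1 := by
    rw [← Real.exp_add]; simp [neg_div]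
  have hAinv : Real.exp u * Real.exp (-u) = 1 := by
    rw [← Real.exp_add]; simp
  set A := Real.exp (-u) with hAdef
  set B := Real.exp (-h) with hBdef
  set G := Real.exp (-u ^ 2 / 2) with hGdef
  set A' := Real.exp u with hA'def
  set G' := Real.exp (u ^ 2 / 2) with hG'def
  have h1 : G * (A' + A) ≤ 2 := by nlinarith
  have h2 : G * (1 + A) ^ 2 ≤ 4 * A := by
    have : G * (1 + A) ^ 2 = A * (G * (A' + A)) + 2 * A * G := by
      have : (1 + A) ^ 2 = A * (A' + A) + 2 * A := by nlinarith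
      rw [this]; ring
    rw [this]; nlinarith
  rw [hsplit]
  have hD1 : 0 < 1 + A * B := by positivity
  have hD2 : 0 < 1 + A := by positivity
  have h3 : 4 * (1 / (1 + A * B) - 1 / (1 + A)) = (1 - B) * (4 * A / ((1 + A * B) * (1 + A))) := by
    field_simp; ring
  rw [h3]
  apply mul_le_mul_of_nonneg_left _ (by linarith)
  rw [le_div_iff₀ (by positivity)]
  have h4 : (1 + A * B) * (1 + A) ≤ (1 + A) ^ 2 := by nlinarith [mul_nonneg hA.le (sub_nonneg.2 hB1)]
  nlinarith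

lemma gauss_tail_sum (h c : ℝ) (hh : 0 < h) (N : ℕ) :
    ∑ k ∈ range N, Real.exp (-(h * k - c) ^ 2 / 2) ≤ 4 * (1 + 1 / h) := by
  have key : (1 - Real.exp (-h)) * ∑ k ∈ range N, Real.exp (-(h * k - c) ^ 2 / 2) ≤
      4 * (1 / (1 + Real.exp (-(h * N - c))) - 1 / (1 + Real.exp (-(h * (0 : ℕ) - c)))) := by
    induction N with
    | zero => simp
    | succ N ih =>
      rw [sum_range_succ, mul_add]
      have := logistic_step (h * N - c) h hh
      have e1 : h * N - c + h = h * ((N + 1 : ℕ) : ℝ) - c := by push_cast; ring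
      rw [e1] at this
      linarith
  have h1 : 1 / (1 + Real.exp (-(h * N - c))) ≤ 1 := by
    rw [div_le_one (by positivity)]; linarith [Real.exp_pos (-(h * N - c))]
  have h2 : 0 ≤ 1 / (1 + Real.exp (-(h * (0 : ℕ) - c))) := by positivity
  have h3 : Real.exp (-h) ≤ 1 / (1 + h) := by
    rw [le_div_iff₀ (by positivity), Real.exp_neg, inv_mul_le_iff₀ (Real.exp_pos _)]
    linarith [Real.add_one_le_exp h]
  have h4 : h / (1 + h) ≤ 1 - Real.exp (-h) := by
    have : h / (1 + h) = 1 - 1 / (1 + h) := by field_simp; ring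
    linarith
  have hS : 0 ≤ ∑ k ∈ range N, Real.exp (-(h * k - c) ^ 2 / 2) := by positivity
  set S := ∑ k ∈ range N, Real.exp (-(h * k - c) ^ 2 / 2)
  have h5 : h / (1 + h) * S ≤ 4 := by nlinarith
  have h6 : S = (1 + 1 / h) * (h / (1 + h) * S) := by field_simp; ring
  rw [h6, mul_comm 4]
  exact mul_le_mul_of_nonneg_left h5 (by positivity)

lemma centralBinom_sq_le (h : ℕ) : (Nat.centralBinom h) ^ 2 * (2 * h + 1) ≤ 16 ^ h := by
  induction h with
  | zero => simp
  | succ h ih =>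
    have e := Nat.succ_mul_centralBinom_succ h
    have hpos : 0 < (h + 1) ^ 2 := by positivity
    refine Nat.le_of_mul_le_mul_left ?_ hpos
    have : (h + 1) ^ 2 * ((Nat.centralBinom (h + 1)) ^ 2 * (2 * (h + 1) + 1)) =
        ((h + 1) * Nat.centralBinom (h + 1)) ^ 2 * (2 * h + 3) := by ring
    rw [this, e]
    have : (2 * (2 * h + 1) * Nat.centralBinom h) ^ 2 * (2 * h + 3) =
        (4 * (2 * h + 1) * (2 * h + 3)) * ((Nat.centralBinom h) ^ 2 * (2 * h + 1)) := by ring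
    rw [this, pow_succ]
    calc (4 * (2 * h + 1) * (2 * h + 3)) * ((Nat.centralBinom h) ^ 2 * (2 * h + 1))
        ≤ (16 * (h + 1) ^ 2) * 16 ^ h := Nat.mul_le_mul (by nlinarith) ih
      _ = _ := by ring

lemma choose_le_div_sqrt (h k : ℕ) :
    ((2 * h).choose k : ℝ) ≤ 2 ^ (2 * h) / √(2 * h + 1) := by
  have h1 : (2 * h).choose k ≤ Nat.centralBinom h := Nat.choose_le_centralBinom k h
  have h2 := centralBinom_sq_le h
  have h3 : ((Nat.centralBinom h : ℝ)) ^ 2 * (2 * h + 1) ≤ 16 ^ h := by exact_mod_cast h2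
  have hs : 0 < √(2 * (h : ℝ) + 1) := Real.sqrt_pos.2 (by positivity)
  rw [le_div_iff₀ hs]
  have h4 : (Nat.centralBinom h : ℝ) * √(2 * h + 1) ≤ 2 ^ (2 * h) := by
    apply le_of_sq_le_sq _ (by positivity) |> fun t => t
    rw [mul_pow, Real.sq_sqrt (by positivity)]
    calc _ ≤ (16 : ℝ) ^ h := h3
      _ = _ := by rw [← pow_mul, mul_comm (2 * h) 2, ← mul_assoc, pow_mul]; norm_num
  calc _ ≤ (Nat.centralBinom h : ℝ) * √(2 * h + 1) := by
        gcongr
    _ ≤ _ := h4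

lemma sum_sign_eq (m : ℕ) (f : ℝ → ℝ) :
    ∑ x : Fin m → Bool, f (∑ l, sgn (x l)) =
      ∑ k ∈ range (m + 1), (m.choose k : ℝ) * f (2 * k - m) := by
  classical
  have h1 : ∑ x : Fin m → Bool, f (∑ l, sgn (x l)) =
      ∑ t ∈ (univ : Finset (Fin m)).powerset, f (2 * (t.card : ℝ) - m) := by
    refine Finset.sum_nbij' (fun x => univ.filter (fun l => x l = true))
      (fun t => fun l => decide (l ∈ t)) ?_ ?_ ?_ ?_ ?_
    · intro x _; simp
    · intro t _; simp
    · intro x _; ext l; simp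
    · intro t _; ext l; simp
    · intro x _
      congr 1
      have : ∀ l, sgn (x l) = 2 * (if x l = true then (1 : ℝ) else 0) - 1 := by
        intro l; unfold sgn; split_ifs <;> norm_num
      simp_rw [this, sum_sub_distrib, ← mul_sum, sum_boole]
      simp
  rw [h1, Finset.sum_powerset_apply_card (fun k => f (2 * (k : ℝ) - m))]
  simp

/-- one-dimensional anticoncentration -/
lemma one_dim (h : ℕ) (s σ c : ℝ) (hs : 0 < s) (hσ : s ≤ σ) :
    ∑ x : Fin (2 * h) → Bool, Real.exp (-((∑ l, sgn (x l)) * σ - c) ^ 2 / 2) ≤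
      2 ^ (2 * h) * (4 * (1 + 1 / s) / √(2 * h + 1)) := by
  rw [sum_sign_eq (2 * h) (fun w => Real.exp (-(w * σ - c) ^ 2 / 2))]
  have hσ0 : 0 < σ := lt_of_lt_of_le hs hσ
  calc _ ≤ ∑ k ∈ range (2 * h + 1), (2 ^ (2 * h) / √(2 * h + 1)) *
          Real.exp (-((2 * σ) * k - (c + (2 * h : ℕ) * σ)) ^ 2 / 2) := by
        refine sum_le_sum fun k _ => ?_
        have : (2 * (k : ℝ) - (2 * h : ℕ)) * σ - c = (2 * σ) * k - (c + (2 * h : ℕ) * σ) := by ring
        rw [this]
        exact mul_le_mul_of_nonneg_right (choose_le_div_sqrt h k) (Real.exp_pos _).le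
    _ ≤ (2 ^ (2 * h) / √(2 * h + 1)) * (4 * (1 + 1 / (2 * σ))) := by
        rw [← mul_sum]
        exact mul_le_mul_of_nonneg_left (gauss_tail_sum _ _ (by positivity) _) (by positivity)
    _ ≤ (2 ^ (2 * h) / √(2 * h + 1)) * (4 * (1 + 1 / s)) := by
        gcongr
        linarith
    _ = _ := by ring

end Pool.Agent.MP_ece343_co

end

section

set_option autoImplicit false

namespace Pool.Agent.MP_ece343_co

open Finset MeasureTheory ProbabilityTheory
open scoped RealInnerProductSpace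

variable {E : Type*} [NormedAddCommGroup E] [InnerProductSpace ℝ E] [FiniteDimensional ℝ E]
  [MeasurableSpace E] [BorelSpace E]

lemma gauss_eq_integral (w : E) :
    Real.exp (-‖w‖ ^ 2 / 2) = ∫ ξ, Real.cos ⟪ξ, w⟫ ∂(stdGaussian E) := by
  have h := charFun_stdGaussian w
  rw [charFun_apply] at h
  have hint : Integrable (fun ξ : E => Complex.exp (⟪ξ, w⟫ * Complex.I)) (stdGaussian E) := by
    refine Integrable.of_bound (by fun_prop) 1 (Filter.Eventually.of_forall fun ξ => ?_)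
    rw [Complex.norm_exp_ofReal_mul_I]
  have h2 := congrArg Complex.re h
  have h3 := integral_re hint
  simp only [RCLike.re_to_complex] at h3
  rw [← h3] at h2
  simp only [Complex.exp_ofReal_mul_I_re] at h2
  rw [h2]
  have : (-(‖w‖ : ℂ) ^ 2 / 2) = ((-‖w‖ ^ 2 / 2 : ℝ) : ℂ) := by push_cast; ring
  rw [this, Complex.exp_ofReal_re]

lemma sum_sign_cos {ι : Type*} [Fintype ι] [DecidableEq ι] (θ : ι → ℝ) (φ : ℝ) :
    ∑ x : ι → Bool, Real.cos (∑ i, sgn (x i) * θ i - φ) =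
      2 ^ Fintype.card ι * (Real.cos φ * ∏ i, Real.cos (θ i)) := by
  have h1 : ∑ x : ι → Bool, Complex.exp ((∑ i, sgn (x i) * θ i - φ : ℝ) * Complex.I) =
      Complex.exp ((-φ : ℝ) * Complex.I) * ((2 ^ Fintype.card ι * ∏ i, Real.cos (θ i) : ℝ) : ℂ) := by
    have h2 : ∀ x : ι → Bool, Complex.exp ((∑ i, sgn (x i) * θ i - φ : ℝ) * Complex.I) =
        Complex.exp ((-φ : ℝ) * Complex.I) *
          ∏ i, Complex.exp ((sgn (x i) * θ i : ℝ) * Complex.I) := by
      intro x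
      rw [← Complex.exp_sum, ← Complex.exp_add]
      congr 1
      push_cast
      rw [← sum_mul]; ring
    simp_rw [h2]
    rw [← mul_sum]
    congr 1
    have h3 := Finset.prod_univ_sum (fun _ : ι => (univ : Finset Bool))
      (fun i b => Complex.exp ((sgn b * θ i : ℝ) * Complex.I))
    rw [Fintype.piFinset_univ] at h3
    rw [← h3]
    have h4 : ∀ i, ∑ b : Bool, Complex.exp ((sgn b * θ i : ℝ) * Complex.I) =
        2 * (Real.cos (θ i) : ℂ) := by
      intro i
      rw [Fintype.sum_bool]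
      simp only [sgn, if_true, Bool.false_eq_true, if_false, one_mul, neg_mul]
      push_cast
      rw [Complex.two_cos]
    simp_rw [h4]
    rw [prod_mul_distrib]
    simp
  have h5 := congrArg Complex.re h1
  rw [Complex.re_sum] at h5
  simp only [Complex.exp_ofReal_mul_I_re, Complex.re_mul_ofReal, Real.cos_neg] at h5
  rw [h5]; ring

lemma integrable_bdd (f : E → ℝ) (hf : Continuous f) (hb : ∀ ξ, |f ξ| ≤ 1) :
    Integrable f (stdGaussian E) :=
  Integrable.of_bound hf.aestronglyMeasurable 1 (Filter.Eventually.of_forall hb)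

lemma sum_gauss_eq {ι : Type*} [Fintype ι] [DecidableEq ι] (a : ι → E) (y : E) :
    ∑ x : ι → Bool, Real.exp (-‖∑ i, sgn (x i) • a i - y‖ ^ 2 / 2) =
      2 ^ Fintype.card ι *
        ∫ ξ, Real.cos ⟪ξ, y⟫ * ∏ i, Real.cos ⟪ξ, a i⟫ ∂(stdGaussian E) := by
  simp_rw [gauss_eq_integral]
  rw [← integral_finsetSum, ← integral_const_mul]
  · congr 1
    ext ξ
    rw [← sum_sign_cos]
    refine sum_congr rfl fun x _ => ?_
    rw [inner_sub_right, inner_sum]
    simp_rw [real_inner_smul_right]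
  · intro x _
    exact integrable_bdd _ (by fun_prop) fun ξ => Real.abs_cos_le_one _

/-- triangular system: unit normals `e j` orthogonal to the later vectors -/
def Tri (s : ℝ) {D : ℕ} (v : Fin D → E) : Prop :=
  ∃ e : Fin D → E, (∀ j, ‖e j‖ = 1) ∧ (∀ j, s ≤ ⟪v j, e j⟫) ∧ ∀ i j, j < i → ⟪v i, e j⟫ = 0

omit [FiniteDimensional ℝ E] [MeasurableSpace E] [BorelSpace E] in
lemma norm_sq_split (z e : E) (he : ‖e‖ = 1) :
    ‖z‖ ^ 2 = ⟪z, e⟫ ^ 2 + ‖z - ⟪z, e⟫ • e‖ ^ 2 := by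
  rw [norm_sub_sq_real, real_inner_smul_right, norm_smul, he]
  simp only [Real.norm_eq_abs, mul_one, sq_abs]
  ring

omit [FiniteDimensional ℝ E] [MeasurableSpace E] [BorelSpace E] in
lemma tri_bound (h : ℕ) (s : ℝ) (hs : 0 < s) (D : ℕ) (v : Fin D → E) (hv : Tri s v) (y : E) :
    ∑ x : Fin D → Fin (2 * h) → Bool,
        Real.exp (-‖∑ j, (∑ l, sgn (x j l)) • v j - y‖ ^ 2 / 2) ≤
      (2 ^ (2 * h) * (4 * (1 + 1 / s) / √(2 * h + 1))) ^ D := by
  induction D generalizing y with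
  | zero =>
    simp only [univ_unique, univ_eq_empty, sum_empty, zero_sub, norm_neg, sum_singleton, pow_zero]
    rw [Real.exp_le_one_iff]
    nlinarith [sq_nonneg ‖y‖]
  | succ D ih =>
    obtain ⟨e, he1, he2, he3⟩ := hv
    have hv' : Tri s (fun j : Fin D => v j.succ) :=
      ⟨fun j => e j.succ, fun j => he1 _, fun j => he2 _,
        fun i j hij => he3 _ _ (Fin.succ_lt_succ_iff.2 hij)⟩
    rw [← (Fin.consEquiv (fun _ : Fin (D + 1) => Fin (2 * h) → Bool)).sum_comp,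
      Fintype.sum_prod_type]
    set β := (2 : ℝ) ^ (2 * h) * (4 * (1 + 1 / s) / √(2 * h + 1)) with hβ
    have hβ0 : 0 ≤ β := by positivity
    have step : ∀ x0 : Fin (2 * h) → Bool,
        ∑ x : Fin D → Fin (2 * h) → Bool, Real.exp (-‖∑ j, (∑ l, sgn
          ((Fin.consEquiv (fun _ : Fin (D + 1) => Fin (2 * h) → Bool)) (x0, x) j l)) • v j - y‖ ^ 2 / 2)
          ≤ Real.exp (-((∑ l, sgn (x0 l)) * ⟪v 0, e 0⟫ - ⟪y, e 0⟫) ^ 2 / 2) * β ^ D := by
      intro x0
      set w := ∑ l, sgn (x0 l) with hw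
      set t := w * ⟪v 0, e 0⟫ - ⟪y, e 0⟫ with ht
      have := ih (fun j => v j.succ) hv' (y - w • v 0 + t • e 0)
      refine le_trans (le_of_eq ?_) (mul_le_mul_of_nonneg_left this (Real.exp_pos _).le)
      rw [mul_sum]
      refine sum_congr rfl fun x _ => ?_
      rw [← Real.exp_add]
      congr 1
      rw [Fin.sum_univ_succ]
      simp only [Fin.consEquiv_apply, Fin.cons_zero, Fin.cons_succ]
      rw [← hw]
      set u := ∑ j : Fin D, (∑ l, sgn (x j l)) • v j.succ with hu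
      have hu0 : ⟪u, e 0⟫ = 0 := by
        rw [hu, sum_inner]
        refine sum_eq_zero fun j _ => ?_
        rw [real_inner_smul_left, he3 _ _ (Fin.succ_pos j), mul_zero]
      have hin : ⟪w • v 0 + u - y, e 0⟫ = t := by
        rw [inner_sub_left, inner_add_left, real_inner_smul_left, hu0, ht]; ring
      rw [norm_sq_split (w • v 0 + u - y) (e 0) (he1 0), hin]
      have : w • v 0 + u - y - t • e 0 = u - (y - w • v 0 + t • e 0) := by abel
      rw [this]; ring
    calc _ ≤ ∑ x0 : Fin (2 * h) → Bool,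
            Real.exp (-((∑ l, sgn (x0 l)) * ⟪v 0, e 0⟫ - ⟪y, e 0⟫) ^ 2 / 2) * β ^ D :=
          sum_le_sum fun x0 _ => step x0
      _ ≤ β * β ^ D := by
          rw [← sum_mul]
          exact mul_le_mul_of_nonneg_right (one_dim h s _ _ hs (he2 0)) (by positivity)
      _ = _ := by ring

lemma tri_integral (h : ℕ) (s : ℝ) (hs : 0 < s) (D : ℕ) (v : Fin D → E) (hv : Tri s v) :
    ∫ ξ, (∏ j, |Real.cos ⟪ξ, v j⟫|) ^ (2 * h) ∂(stdGaussian E) ≤
      (4 * (1 + 1 / s) / √(2 * h + 1)) ^ D := by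
  have h1 := sum_gauss_eq (fun p : Fin D × Fin (2 * h) => v p.1) 0
  have h2 := tri_bound h s hs D v hv 0
  have h3 : ∑ x : Fin D × Fin (2 * h) → Bool,
      Real.exp (-‖∑ p, sgn (x p) • v p.1 - 0‖ ^ 2 / 2) =
      ∑ x : Fin D → Fin (2 * h) → Bool,
        Real.exp (-‖∑ j, (∑ l, sgn (x j l)) • v j - 0‖ ^ 2 / 2) := by
    refine Fintype.sum_equiv (Equiv.curry _ _ _) _ _ fun x => ?_
    rw [Fintype.sum_prod_type]
    simp_rw [sum_smul]
    rfl
  rw [← h3, h1] at h2
  have h4 : ∀ ξ : E, Real.cos ⟪ξ, (0 : E)⟫ * ∏ p : Fin D × Fin (2 * h), Real.cos ⟪ξ, v p.1⟫ =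
      (∏ j, |Real.cos ⟪ξ, v j⟫|) ^ (2 * h) := by
    intro ξ
    rw [inner_zero_right, Real.cos_zero, one_mul, Fintype.prod_prod_type, ← prod_pow]
    refine prod_congr rfl fun j _ => ?_
    simp [pow_mul]
  simp_rw [h4] at h2
  rw [mul_pow, ← pow_mul] at h2
  simp only [Fintype.card_prod, Fintype.card_fin] at h2
  rw [mul_comm D] at h2
  exact le_of_mul_le_mul_left h2 (by positivity)

end Pool.Agent.MP_ece343_co

end

section

set_option autoImplicit false

namespace Pool.Agent.MP_ece343_co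

open Finset MeasureTheory ProbabilityTheory
open scoped RealInnerProductSpace

variable {E : Type*} [NormedAddCommGroup E] [InnerProductSpace ℝ E] [FiniteDimensional ℝ E]

lemma exists_normal (S : Submodule ℝ E) (v : E) (s : ℝ) (hs : 0 < s)
    (h : s < Metric.infDist v (S : Set E)) :
    ∃ e : E, ‖e‖ = 1 ∧ s ≤ ⟪v, e⟫ ∧ ∀ u ∈ S, ⟪u, e⟫ = 0 := by
  set p := S.starProjection v with hp
  have hpS : p ∈ S := S.starProjection_apply_mem v
  have h1 : s < ‖v - p‖ := by
    have := Metric.infDist_le_dist_of_mem (x := v) (show p ∈ (S : Set E) from hpS)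
    rw [dist_eq_norm] at this
    linarith
  have h2 : ∀ u ∈ S, ⟪u, v - p⟫ = 0 := by
    intro u hu
    rw [real_inner_comm]
    exact S.starProjection_inner_eq_zero v u hu
  have hn : 0 < ‖v - p‖ := by linarith
  refine ⟨‖v - p‖⁻¹ • (v - p), ?_, ?_, ?_⟩
  · rw [norm_smul, norm_inv, norm_norm, inv_mul_cancel₀ hn.ne']
  · rw [real_inner_smul_right]
    have : ⟪v, v - p⟫ = ‖v - p‖ ^ 2 := by
      have h3 : ⟪v - p, v - p⟫ = ⟪v, v - p⟫ - ⟪p, v - p⟫ := inner_sub_left _ _ _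
      rw [h2 p hpS, real_inner_self_eq_norm_sq] at h3
      linarith
    rw [this]
    have : ‖v - p‖⁻¹ * ‖v - p‖ ^ 2 = ‖v - p‖ := by field_simp
    linarith
  · intro u hu
    rw [real_inner_smul_right, h2 u hu, mul_zero]

lemma exists_tuple {ι : Type*} [Fintype ι] [DecidableEq ι] (a : ι → E) (s : ℝ) (hs : 0 < s)
    (K M : ℕ)
    (H : ∀ S : Submodule ℝ E, Module.finrank ℝ S ≤ K →
      M ≤ {i | s < Metric.infDist (a i) (S : Set E)}.ncard)
    (U : Finset ι) (D : ℕ) (hD : D ≤ K + 1) (hU : U.card + D ≤ M) :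
    ∃ φ : Fin D → ι, Function.Injective φ ∧ (∀ j, φ j ∉ U) ∧ Tri s (fun j => a (φ j)) := by
  induction D with
  | zero => exact ⟨Fin.elim0, fun j => j.elim0, fun j => j.elim0,
      Fin.elim0, fun j => j.elim0, fun j => j.elim0, fun j => j.elim0⟩
  | succ D ih =>
    obtain ⟨φ, hφ1, hφ2, e, he1, he2, he3⟩ := ih (by omega) (by omega)
    set S := Submodule.span ℝ (Set.range fun j => a (φ j)) with hS
    have hSr : Module.finrank ℝ S ≤ K := by
      have := finrank_range_le_card (R := ℝ) (fun j => a (φ j))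
      simp only [Fintype.card_fin] at this
      exact le_trans this (by omega)
    have h1 := H S hSr
    have h2 : ∃ i, s < Metric.infDist (a i) (S : Set E) ∧ i ∉ U ∪ univ.image φ := by
      by_contra hc
      push Not at hc
      have h3 : {i | s < Metric.infDist (a i) (S : Set E)} ⊆ ((U ∪ univ.image φ : Finset ι) : Set ι) :=
        fun i hi => hc i hi
      have h4 := Set.ncard_le_ncard h3
      rw [Set.ncard_coe_finset] at h4
      have h5 : (U ∪ univ.image φ).card ≤ U.card + D := by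
        refine le_trans (card_union_le _ _) ?_
        have : (univ.image φ).card ≤ D := by simpa using card_image_le (s := univ) (f := φ)
        omega
      omega
    obtain ⟨i, hi1, hi2⟩ := h2
    obtain ⟨e0, h01, h02, h03⟩ := exists_normal S (a i) s hs hi1
    simp only [mem_union, mem_image, mem_univ, true_and, not_or, not_exists] at hi2
    refine ⟨Fin.cons i φ, ?_, ?_, Fin.cons e0 e, ?_, ?_, ?_⟩
    · rw [Fin.cons_injective_iff]
      exact ⟨fun ⟨j, hj⟩ => hi2.2 j hj, hφ1⟩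
    · intro j
      refine Fin.cases ?_ (fun j => ?_) j
      · simpa using hi2.1
      · simpa using hφ2 j
    · intro j
      refine Fin.cases ?_ (fun j => ?_) j
      · simpa using h01
      · simpa using he1 j
    · intro j
      refine Fin.cases ?_ (fun j => ?_) j
      · simpa using h02
      · simpa using he2 j
    · intro k j
      refine Fin.cases ?_ (fun k => ?_) k
      · intro h; exact absurd h (Fin.not_lt_zero j)
      · refine Fin.cases ?_ (fun j => ?_) j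
        · intro _
          simp only [Fin.cons_succ, Fin.cons_zero]
          exact h03 _ (Submodule.subset_span ⟨k, rfl⟩)
        · intro h
          simp only [Fin.cons_succ]
          exact he3 k j (Fin.succ_lt_succ_iff.1 h)

lemma exists_tuples {ι : Type*} [Fintype ι] [DecidableEq ι] (a : ι → E) (s : ℝ) (hs : 0 < s)
    (K M : ℕ)
    (H : ∀ S : Submodule ℝ E, Module.finrank ℝ S ≤ K →
      M ≤ {i | s < Metric.infDist (a i) (S : Set E)}.ncard)
    (m : ℕ) (hm : m * (K + 1) ≤ M) :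
    ∃ U : Finset ι, U.card ≤ m * (K + 1) ∧ ∃ φ : Fin m → Fin (K + 1) → ι,
      (∀ t, Tri s (fun j => a (φ t j))) ∧
      ∀ f : ι → ℝ, ∏ i ∈ U, f i = ∏ t, ∏ j, f (φ t j) := by
  induction m with
  | zero => exact ⟨∅, by simp, Fin.elim0, fun t => t.elim0, fun f => by simp⟩
  | succ m ih =>
    obtain ⟨U, hU, φ, hφ1, hφ2⟩ := ih (by nlinarith)
    obtain ⟨ψ, hψ1, hψ2, hψ3⟩ := exists_tuple a s hs K M H U (K + 1) le_rfl (by nlinarith)
    refine ⟨univ.image ψ ∪ U, ?_, Fin.cons ψ φ, ?_, ?_⟩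
    · refine le_trans (card_union_le _ _) ?_
      have : (univ.image ψ).card ≤ K + 1 := by simpa using card_image_le (s := univ) (f := ψ)
      nlinarith
    · intro t
      refine Fin.cases ?_ (fun t => ?_) t
      · simpa using hψ3
      · simpa using hφ1 t
    · intro f
      rw [prod_union, prod_image (fun x _ y _ h => hψ1 h), hφ2,
        Fin.prod_univ_succ (n := m)]
      · simp
      · rw [disjoint_left]
        intro i hi
        obtain ⟨j, _, rfl⟩ := mem_image.1 hi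
        exact hψ2 j

variable [MeasurableSpace E] [BorelSpace E]

lemma halasz {ι : Type*} [Fintype ι] [DecidableEq ι] (a : ι → E) (s : ℝ) (hs : 0 < s)
    (K M : ℕ)
    (H : ∀ S : Submodule ℝ E, Module.finrank ℝ S ≤ K →
      M ≤ {i | s < Metric.infDist (a i) (S : Set E)}.ncard)
    (h : ℕ) (hh : 0 < h) (hm : 2 * h * (K + 1) ≤ M) (y : E) :
    ∑ x : ι → Bool, Real.exp (-‖∑ i, sgn (x i) • a i - y‖ ^ 2 / 2) ≤
      2 ^ Fintype.card ι * (2 * h * (4 * (1 + 1 / s) / √(2 * h + 1)) ^ (K + 1)) := by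
  rw [sum_gauss_eq]
  refine mul_le_mul_of_nonneg_left ?_ (by positivity)
  obtain ⟨U, -, φ, hφ1, hφ2⟩ := exists_tuples a s hs K M H (2 * h) hm
  have hF1 : ∀ (t : Fin (2 * h)) (ξ : E), |(∏ j, |Real.cos ⟪ξ, a (φ t j)⟫|) ^ (2 * h)| ≤ 1 := by
    intro t ξ
    rw [abs_of_nonneg (by positivity)]
    exact pow_le_one₀ (by positivity)
      (prod_le_one (fun _ _ => abs_nonneg _) fun _ _ => Real.abs_cos_le_one _)
  have hpt : ∀ ξ : E, Real.cos ⟪ξ, y⟫ * ∏ i, Real.cos ⟪ξ, a i⟫ ≤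
      ∑ t : Fin (2 * h), (∏ j, |Real.cos ⟪ξ, a (φ t j)⟫|) ^ (2 * h) := by
    intro ξ
    have h1 : Real.cos ⟪ξ, y⟫ * ∏ i, Real.cos ⟪ξ, a i⟫ ≤ ∏ i, |Real.cos ⟪ξ, a i⟫| := by
      refine le_trans (le_abs_self _) ?_
      rw [abs_mul, abs_prod]
      exact mul_le_of_le_one_left (by positivity) (Real.abs_cos_le_one _)
    have h2 : ∏ i, |Real.cos ⟪ξ, a i⟫| ≤ ∏ i ∈ U, |Real.cos ⟪ξ, a i⟫| :=
      prod_le_prod_of_subset_of_le_one (subset_univ U) (fun _ _ => abs_nonneg _)
        fun _ _ _ => Real.abs_cos_le_one _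
    rw [hφ2] at h2
    have : Nonempty (Fin (2 * h)) := ⟨⟨0, by omega⟩⟩
    obtain ⟨t0, -, ht0⟩ := exists_max_image (univ : Finset (Fin (2 * h)))
      (fun t => ∏ j, |Real.cos ⟪ξ, a (φ t j)⟫|) univ_nonempty
    have h3 : ∏ t, ∏ j, |Real.cos ⟪ξ, a (φ t j)⟫| ≤ (∏ j, |Real.cos ⟪ξ, a (φ t0 j)⟫|) ^ (2 * h) := by
      calc _ ≤ ∏ _t : Fin (2 * h), ∏ j, |Real.cos ⟪ξ, a (φ t0 j)⟫| :=
            prod_le_prod (fun _ _ => by positivity) fun t ht => ht0 t ht
        _ = _ := by simp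
    have h4 := single_le_sum (f := fun t : Fin (2 * h) => (∏ j, |Real.cos ⟪ξ, a (φ t j)⟫|) ^ (2 * h))
      (fun _ _ => by positivity) (mem_univ t0)
    linarith
  have hint : ∀ t : Fin (2 * h),
      Integrable (fun ξ : E => (∏ j, |Real.cos ⟪ξ, a (φ t j)⟫|) ^ (2 * h)) (stdGaussian E) :=
    fun t => integrable_bdd _ (by fun_prop) (hF1 t)
  calc _ ≤ ∫ ξ, ∑ t : Fin (2 * h), (∏ j, |Real.cos ⟪ξ, a (φ t j)⟫|) ^ (2 * h) ∂(stdGaussian E) := by
        refine integral_mono ?_ (integrable_finsetSum _ fun t _ => hint t) hpt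
        refine integrable_bdd _ (by fun_prop) fun ξ => ?_
        rw [abs_mul, abs_prod]
        exact mul_le_one₀ (Real.abs_cos_le_one _) (by positivity)
          (prod_le_one (fun _ _ => abs_nonneg _) fun _ _ => Real.abs_cos_le_one _)
    _ = ∑ t : Fin (2 * h), ∫ ξ, (∏ j, |Real.cos ⟪ξ, a (φ t j)⟫|) ^ (2 * h) ∂(stdGaussian E) :=
        integral_finsetSum _ fun t _ => hint t
    _ ≤ ∑ _t : Fin (2 * h), (4 * (1 + 1 / s) / √(2 * h + 1)) ^ (K + 1) :=
        sum_le_sum fun t _ => tri_integral h s hs (K + 1) _ (hφ1 t)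
    _ = _ := by simp

end Pool.Agent.MP_ece343_co

end

section

set_option autoImplicit false

namespace Pool.Agent.MP_ece343_co

open Finset MeasureTheory ProbabilityTheory
open scoped RealInnerProductSpace Pointwise

variable {E : Type*} [NormedAddCommGroup E] [InnerProductSpace ℝ E] [FiniteDimensional ℝ E]

omit [FiniteDimensional ℝ E] in
lemma infDist_smul_submodule (S : Submodule ℝ E) (c : ℝ) (hc : 0 < c) (v : E) :
    Metric.infDist (c • v) (S : Set E) = c * Metric.infDist v (S : Set E) := by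
  have h1 : c • (S : Set E) = (S : Set E) := by
    ext u
    rw [Set.mem_smul_set_iff_inv_smul_mem₀ hc.ne']
    exact S.smul_mem_iff (inv_ne_zero hc.ne')
  have h2 := infDist_smul₀ hc.ne' (S : Set E) v
  rw [h1, Real.norm_eq_abs, abs_of_pos hc] at h2
  exact h2

variable [MeasurableSpace E] [BorelSpace E]

lemma small_ball {n : ℕ} (a : Fin n → E) (r δ : ℝ) (hr : 0 < r) (hδ : 0 < δ) (K M : ℕ)
    (H : ∀ S : Submodule ℝ E, Module.finrank ℝ S ≤ K →
      M ≤ {i | δ < Metric.infDist (a i) (S : Set E)}.ncard)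
    (h : ℕ) (hh : 0 < h) (hm : 2 * h * (K + 1) ≤ M) (y : E) :
    ({x : Fin n → Bool | ∑ i, sgn (x i) • a i ∈ Metric.closedBall y r}.ncard : ℝ) / 2 ^ n ≤
      2 * (2 * h * (4 * (1 + r / δ) / √(2 * h + 1)) ^ (K + 1)) := by
  classical
  have H' : ∀ S : Submodule ℝ E, Module.finrank ℝ S ≤ K →
      M ≤ {i | δ / r < Metric.infDist (r⁻¹ • a i) (S : Set E)}.ncard := by
    intro S hS
    refine le_trans (H S hS) (le_of_eq ?_)
    congr 1
    ext i
    simp only [Set.mem_ofPred_eq]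
    rw [infDist_smul_submodule S _ (inv_pos.2 hr), div_eq_inv_mul,
      mul_lt_mul_iff_right₀ (inv_pos.2 hr)]
  have h1 := halasz (fun i => r⁻¹ • a i) (δ / r) (by positivity) K M H' h hh hm (r⁻¹ • y)
  rw [one_div_div, Fintype.card_fin] at h1
  rw [div_le_iff₀ (by positivity)]
  have h2 : ({x : Fin n → Bool | ∑ i, sgn (x i) • a i ∈ Metric.closedBall y r}.ncard : ℝ) ≤
      2 * ∑ x : Fin n → Bool,
        Real.exp (-‖∑ i, sgn (x i) • r⁻¹ • a i - r⁻¹ • y‖ ^ 2 / 2) := by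
    have e1 : {x : Fin n → Bool | ∑ i, sgn (x i) • a i ∈ Metric.closedBall y r} =
        ((univ.filter fun x : Fin n → Bool => ∑ i, sgn (x i) • a i ∈ Metric.closedBall y r :
          Finset _) : Set _) := by
      ext x; simp
    rw [e1, Set.ncard_coe_finset, card_filter, mul_sum]
    push_cast
    refine sum_le_sum fun x _ => ?_
    split_ifs with hx
    · have e2 : ∑ i, sgn (x i) • r⁻¹ • a i - r⁻¹ • y = r⁻¹ • (∑ i, sgn (x i) • a i - y) := by
        rw [smul_sub, smul_sum]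
        simp_rw [smul_comm (r⁻¹)]
      rw [Metric.mem_closedBall, dist_eq_norm] at hx
      have e3 : ‖∑ i, sgn (x i) • r⁻¹ • a i - r⁻¹ • y‖ ≤ 1 := by
        rw [e2, norm_smul, norm_inv, Real.norm_eq_abs, abs_of_pos hr, inv_mul_le_iff₀ hr]
        linarith
      have e4 : ‖∑ i, sgn (x i) • r⁻¹ • a i - r⁻¹ • y‖ ^ 2 ≤ 1 :=
        pow_le_one₀ (norm_nonneg _) e3
      have := Real.add_one_le_exp (-‖∑ i, sgn (x i) • r⁻¹ • a i - r⁻¹ • y‖ ^ 2 / 2)
      linarith
    · positivity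
  have h3 : (0 : ℝ) < 2 ^ n := by positivity
  nlinarith [h1, h2]

lemma numeric (ε C : ℝ) (hε : 0 < ε) (hε1 : ε < 1) (hC : 0 < C) :
    ∃ K N : ℕ, ∀ n : ℕ, N ≤ n → ∃ h : ℕ, 0 < h ∧ ((2 * h * (K + 1) : ℕ) : ℝ) ≤ (n : ℝ) ^ ε ∧
      2 * (2 * h * (4 * (1 + (1 / √n) / (n : ℝ) ^ (-ε)) / √(2 * h + 1)) ^ (K + 1)) <
        (n : ℝ) ^ (-C) := by
  set η := min ε (1 - ε) / 2 with hη
  have hη0 : 0 < η := by
    have : 0 < min ε (1 - ε) := lt_min hε (by linarith)
    positivity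
  have hη1 : η ≤ ε / 2 := by have := min_le_left ε (1 - ε); linarith
  have hη2 : η ≤ (1 - ε) / 2 := by have := min_le_right ε (1 - ε); linarith
  obtain ⟨K, hK⟩ := exists_nat_ge ((C + 2) / η)
  have hK' : C + 2 ≤ η * (K + 1 : ℕ) := by
    rw [div_le_iff₀ hη0] at hK
    push_cast; nlinarith
  set D : ℝ := ((K + 1 : ℕ) : ℝ) with hD
  have hD0 : 0 < D := by positivity
  set A : ℝ := 8 * √(2 * D) with hA
  have hlim : ∀ᶠ n : ℕ in Filter.atTop, 2 * D ≤ (n : ℝ) ^ ε :=
    ((tendsto_rpow_atTop hε).comp tendsto_natCast_atTop_atTop).eventually_ge_atTop _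
  have hlim2 : ∀ᶠ n : ℕ in Filter.atTop, 2 * A ^ (K + 1) < (n : ℝ) :=
    tendsto_natCast_atTop_atTop.eventually_gt_atTop _
  have hlim3 : ∀ᶠ n : ℕ in Filter.atTop, 1 ≤ n := Filter.eventually_ge_atTop 1
  obtain ⟨N, hN⟩ := Filter.eventually_atTop.1 (hlim.and (hlim2.and hlim3))
  refine ⟨K, N, fun n hn => ?_⟩
  obtain ⟨h1, h2, h3⟩ := hN n hn
  set x : ℝ := (n : ℝ) with hx
  have hx1 : 1 ≤ x := by rw [hx]; exact_mod_cast h3
  have hx0 : 0 < x := by linarith
  set h := ⌊x ^ ε / (2 * D)⌋₊ with hh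
  have hq1 : 1 ≤ x ^ ε / (2 * D) := by rw [le_div_iff₀ (by positivity)]; linarith
  have hh0 : 0 < h := Nat.floor_pos.2 hq1
  have hh1 : (h : ℝ) ≤ x ^ ε / (2 * D) := Nat.floor_le (by positivity)
  have hh2 : x ^ ε / (2 * D) < h + 1 := Nat.lt_floor_add_one _
  have hh3 : 2 * h * D ≤ x ^ ε := by
    rw [le_div_iff₀ (by positivity)] at hh1; linarith
  refine ⟨h, hh0, by rw [hD] at hh3; push_cast at hh3 ⊢; linarith, ?_⟩
  have hD1 : 1 ≤ D := by rw [hD]; exact_mod_cast Nat.le_add_left 1 K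
  have hxe : x ^ ε ≤ x := by
    calc x ^ ε ≤ x ^ (1 : ℝ) := Real.rpow_le_rpow_of_exponent_le hx1 hε1.le
      _ = x := Real.rpow_one x
  have hh4 : 2 * (h : ℝ) ≤ x := by
    have : (0 : ℝ) ≤ h := by positivity
    nlinarith
  have hsq : x ^ (ε / 2) / √(2 * D) ≤ √(2 * h + 1) := by
    have e1 : x ^ (ε / 2) = √(x ^ ε) := by
      rw [Real.sqrt_eq_rpow, ← Real.rpow_mul hx0.le]; congr 1; ring
    rw [e1, ← Real.sqrt_div (by positivity)]
    apply Real.sqrt_le_sqrt
    have : (0 : ℝ) ≤ h := by positivity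
    linarith
  have hrat : (1 / √x) / x ^ (-ε) = x ^ (ε - 1 / 2) := by
    rw [Real.sqrt_eq_rpow, Real.rpow_neg hx0.le, Real.rpow_sub hx0]
    field_simp
  have hB : 4 * (1 + (1 / √x) / x ^ (-ε)) / √(2 * h + 1) ≤ A * x ^ (-η) := by
    rw [hrat]
    have e1 : x ^ (-(ε / 2)) ≤ x ^ (-η) := Real.rpow_le_rpow_of_exponent_le hx1 (by linarith)
    have e2 : x ^ (ε - 1 / 2) * x ^ (-(ε / 2)) ≤ x ^ (-η) := by
      rw [← Real.rpow_add hx0]
      exact Real.rpow_le_rpow_of_exponent_le hx1 (by linarith)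
    have e3 : 0 < x ^ (ε / 2) := by positivity
    have e4 : 0 < √(2 * D) := by positivity
    calc _ ≤ 4 * (1 + x ^ (ε - 1 / 2)) / (x ^ (ε / 2) / √(2 * D)) := by gcongr
      _ = 4 * √(2 * D) * (x ^ (-(ε / 2)) + x ^ (ε - 1 / 2) * x ^ (-(ε / 2))) := by
          rw [Real.rpow_neg hx0.le]; field_simp
      _ ≤ 4 * √(2 * D) * (2 * x ^ (-η)) := by gcongr; linarith
      _ = _ := by rw [hA]; ring
  have hB2 : (4 * (1 + (1 / √x) / x ^ (-ε)) / √(2 * h + 1)) ^ (K + 1) ≤
      A ^ (K + 1) * x ^ (-(C + 2)) := by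
    calc _ ≤ (A * x ^ (-η)) ^ (K + 1) := by gcongr
      _ = A ^ (K + 1) * x ^ (-η * D) := by
          rw [mul_pow, ← Real.rpow_natCast (x ^ (-η)), ← Real.rpow_mul hx0.le]
      _ ≤ _ := by
          gcongr
          linarith
  have e5 : x ^ (-C) = x * x * x ^ (-(C + 2)) := by
    have : x ^ (-C) = x ^ (2 : ℝ) * x ^ (-(C + 2)) := by
      rw [← Real.rpow_add hx0]; congr 1; ring
    rw [this, Real.rpow_two]; ring
  have e6 : 0 < x ^ (-(C + 2)) := by positivity
  have hA0 : 0 < A ^ (K + 1) := by positivity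
  calc _ ≤ 2 * (x * (A ^ (K + 1) * x ^ (-(C + 2)))) := by gcongr
    _ = (2 * A ^ (K + 1)) * (x * x ^ (-(C + 2))) := by ring
    _ < x * (x * x ^ (-(C + 2))) := by gcongr
    _ = _ := by rw [e5]; ring

theorem inverse_LO (ε : ℝ) (hε : 0 < ε) (hε1 : ε < 1) (C : ℝ) (hC : 0 < C) :
    ∃ K : ℕ, ∀ (n d : ℕ), 2 ≤ n →
      ∀ (c : EuclideanSpace ℝ (Fin d)) (a : Fin n → EuclideanSpace ℝ (Fin d)),
        (n : ℝ) ^ (-C) ≤
          ({x : Fin n → Bool | ∑ i, (if x i then (1 : ℝ) else -1) • a i ∈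
            Metric.closedBall c (1 / √n)}.ncard : ℝ) / 2 ^ n →
        ∃ S : Submodule ℝ (EuclideanSpace ℝ (Fin d)), Module.finrank ℝ S ≤ K ∧
          ({i : Fin n | (n : ℝ) ^ (-ε) < Metric.infDist (a i) S}.ncard : ℝ) ≤ (n : ℝ) ^ ε := by
  obtain ⟨K, N, hKN⟩ := numeric ε C hε hε1 hC
  refine ⟨K + N, fun n d hn c a hp => ?_⟩
  have hn0 : (0 : ℝ) < n := by positivity
  by_cases hnN : N ≤ n
  · by_contra hcon
    push Not at hcon
    obtain ⟨h, hh0, hh1, hh2⟩ := hKN n hnN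
    have := small_ball a (1 / √n) ((n : ℝ) ^ (-ε)) (by positivity) (by positivity) K
      (2 * h * (K + 1)) (fun S hS => by
        have := hcon S (by omega)
        exact_mod_cast (lt_of_le_of_lt hh1 this).le) h hh0 le_rfl c
    unfold sgn at this
    linarith
  · refine ⟨Submodule.span ℝ (Set.range a), ?_, ?_⟩
    · have := finrank_range_le_card (R := ℝ) a
      simp only [Fintype.card_fin] at this
      exact le_trans this (by omega)
    · have : {i : Fin n | (n : ℝ) ^ (-ε) <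
          Metric.infDist (a i) (Submodule.span ℝ (Set.range a))} = ∅ := by
        ext i
        have h1 : Metric.infDist (a i) (Submodule.span ℝ (Set.range a)) = 0 :=
          Metric.infDist_zero_of_mem (Submodule.subset_span ⟨i, rfl⟩)
        have h2 : 0 < (n : ℝ) ^ (-ε) := by positivity
        simp [h1, h2.le]
      rw [this]
      simp only [Set.ncard_empty, Nat.cast_zero]
      positivity

end Pool.Agent.MP_ece343_co

end
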